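import Pool.Agent.W566.MZ.Defs
import Pool.Agent.W294.MZ.Field

/-!
# MP_aa8fd2_nt : interface statements of the parts

Counterexample: `F = ℚ(√5)`, `p = 2`, `n = 3`, `k` the field with four elements,
`ρ̄ : G_{F,S} → GL₃(k)` with image `C₉ ⋊ C₃`, `L/F` the `C₃ × C₃`-extension cut out by the
projective image, `S` the places above `30`.
-/

set_option autoImplicit false

namespace MZ

open NumberField IsDedekindDomain

/-! ## Part T: the group theorem -/

/-- Number of continuous homomorphisms to `ℤ/2`. -/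
noncomputable def numHom2 (P : Type) [Group P] [TopologicalSpace P] : ℕ :=
  Nat.card {χ : P →* Multiplicative (ZMod 2) // IsOpen (χ.ker : Set P)}

/-- Number of orbits of the involution (or trivial element) `c` on `P/N`, `N` normal. -/
noncomputable def orb {P : Type} [Group P] (N : Subgroup P) (c : P) : ℕ :=
  open Classical in if c ∈ N then Nat.card (P ⧸ N) else Nat.card (P ⧸ N) / 2

/-- Every open normal subgroup has index a power of 2. -/
def ProTwo (P : Type) [Group P] [TopologicalSpace P] : Prop :=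
  ∀ N : Subgroup P, N.Normal → IsOpen (N : Set P) → ∃ e : ℕ, Nat.card (P ⧸ N) = 2 ^ e

/-- `c` and `σ` generate `P` topologically. -/
def TopGen {P : Type} [Group P] [TopologicalSpace P] {ι : Type} (c : ι → P) (σ : P) : Prop :=
  ∀ N : Subgroup P, IsOpen (N : Set P) → (∀ i, c i ∈ N) → σ ∈ N → N = ⊤

/-- Every assignment of the generators `c i` to involutions and of `σ` to anything, in a finite
2-group, extends to a continuous homomorphism. -/
def Assign {P : Type} [Group P] [TopologicalSpace P] {ι : Type} (c : ι → P) (σ : P) : Prop :=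
  ∀ (H : Type) [Group H] [Finite H], (∃ e : ℕ, Nat.card H = 2 ^ e) →
    ∀ (t : ι → H) (u : H), (∀ i, t i * t i = 1) →
      ∃ ψ : P →* H, IsOpen (ψ.ker : Set P) ∧ (∀ i, ψ (c i) = t i) ∧ ψ σ = u

/-- PART T. -/
def StmT : Prop :=
  ∀ (P : Type) [Group P] [TopologicalSpace P] [IsTopologicalGroup P] [CompactSpace P]
    [TotallyDisconnectedSpace P], ProTwo P →
    ∀ (ι : Type) [Fintype ι] (c : ι → P) (σ : P), (∀ i, c i * c i = 1) → TopGen c σ →
      (∀ N : Subgroup P, N.Normal → IsOpen (N : Set P) →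
        2 ^ (∑ i, orb N (c i) + 1) ≤ numHom2 N) →
      Assign c σ

/-- PART LIM: from finite 2-groups to `GL_n(k⟦X⟧)`. -/
def StmLim : Prop :=
  ∀ (P : Type) [Group P] [TopologicalSpace P] [IsTopologicalGroup P] [CompactSpace P]
    [TotallyDisconnectedSpace P] (ι : Type) (c : ι → P) (σ : P), TopGen c σ → Assign c σ →
    ∀ (k : Type) [Field k] [Finite k] [CharP k 2] (n : ℕ) (t : ι → GL (Fin n) (PowerSeries k)),
      (∀ i, t i * t i = 1) →
      (∀ i, Matrix.GeneralLinearGroup.map PowerSeries.constantCoeff (t i) = 1) →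
      ∃ ψ : P →* GL (Fin n) (PowerSeries k),
        (∀ g, Matrix.GeneralLinearGroup.map PowerSeries.constantCoeff (ψ g) = 1) ∧
        (∀ m : ℕ, IsOpen {g : P | ∀ a b : Fin n, (PowerSeries.X : PowerSeries k) ^ m ∣
          ((ψ g : Matrix (Fin n) (Fin n) (PowerSeries k)) - 1) a b}) ∧
        (∀ i, ψ (c i) = t i) ∧ ψ σ = 1

/-- PART FRAT: a closed subgroup on which no nontrivial character of order 2 vanishes is
everything (used for `TopGen`). -/
def StmFrat : Prop :=
  ∀ (P : Type) [Group P] [TopologicalSpace P] [IsTopologicalGroup P] [CompactSpace P]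
    [TotallyDisconnectedSpace P], ProTwo P →
    ∀ (ι : Type) (c : ι → P) (σ : P),
      (∀ χ : P →* Multiplicative (ZMod 2), IsOpen (χ.ker : Set P) → (∀ i, χ (c i) = 1) →
        χ σ = 1 → χ = 1) → TopGen c σ

/-- PART SZ: complement and commuting element. `G` profinite, `P` open normal pro-2, `G/P` a
3-group, `D ≤ P` open, normal in `G`, of index 2 in `P`. -/
def StmSZ : Prop :=
  ∀ (G : Type) [Group G] [TopologicalSpace G] [IsTopologicalGroup G] [CompactSpace G]
    [TotallyDisconnectedSpace G] (P D : Subgroup G), P.Normal → IsOpen (P : Set G) →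
    D.Normal → IsOpen (D : Set G) → D ≤ P → D.relIndex P = 2 →
    (∃ e : ℕ, Nat.card (G ⧸ P) = 3 ^ e) →
    (∀ N : Subgroup G, N.Normal → IsOpen (N : Set G) → N ≤ P → ∃ e : ℕ, N.relIndex P = 2 ^ e) →
    ∃ (A : Subgroup G) (σ : G), A ⊓ P = ⊥ ∧ (∀ g : G, ∃ a ∈ A, ∃ q ∈ P, g = q * a) ∧
      σ ∈ P ∧ σ ∉ D ∧ ∀ a ∈ A, a * σ = σ * a

/-! ## Part KUM: the Kummer tower -/

section Kummer

/-- `x` is a 2-unit (`x` and `x⁻¹` are integral over `ℤ[1/2]`). -/
def TwoUnit {Ω : Type} [Field Ω] (x : Ω) : Prop :=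
  x ≠ 0 ∧ ∃ n : ℕ, IsIntegral ℤ (2 ^ n * x) ∧ IsIntegral ℤ (2 ^ n * x⁻¹)

/-- Closed under square roots of 2-units. -/
def KumClosed {L Ω : Type} [Field L] [Field Ω] [Algebra L Ω] (M : IntermediateField L Ω) : Prop :=
  ∀ x y : Ω, x ∈ M → TwoUnit x → y ^ 2 = x → y ∈ M

/-- `L_∞` : the smallest extension of `L` inside `Ω` closed under square roots of 2-units. -/
def Linf (L Ω : Type) [Field L] [Field Ω] [Algebra L Ω] : IntermediateField L Ω :=
  sInf {M | KumClosed M}

/-- PART K1: `L_∞` is closed under square roots of 2-units, and `L_∞/F` is Galois when `L/F` is. -/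
def StmK1 : Prop :=
  (∀ (L Ω : Type) [Field L] [Field Ω] [Algebra L Ω], KumClosed (Linf L Ω)) ∧
  ∀ (F L Ω : Type) [Field F] [NumberField F] [Field L] [NumberField L] [Field Ω] [Algebra F L]
    [Algebra L Ω] [Algebra F Ω] [IsScalarTower F L Ω] [IsAlgClosure L Ω],
    IsGalois F L → IsGalois F (Linf L Ω)

/-- PART K2: `Gal(L_∞/L)` is pro-2. -/
def StmK2 : Prop :=
  ∀ (L Ω : Type) [Field L] [NumberField L] [Field Ω] [Algebra L Ω] [IsAlgClosure L Ω],
    ProTwo Gal((Linf L Ω)/L)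

/-- PART K3: if the square root of `a ∈ L` lies in `L_∞` then `a` has even valuations outside 2. -/
def StmK3 : Prop :=
  ∀ (L Ω : Type) [Field L] [NumberField L] [Field Ω] [Algebra L Ω] [IsAlgClosure L Ω] (a : L)
    (y : Ω), a ≠ 0 → y ∈ Linf L Ω → y ^ 2 = algebraMap L Ω a → MZ294.EvenOut2 L a

/-- PART K4: the Kummer/Dirichlet lower bound. -/
def StmK4 : Prop :=
  ∀ (L Ω : Type) [Field L] [NumberField L] [Field Ω] [Algebra L Ω] [IsAlgClosure L Ω]
    (N : Subgroup Gal((Linf L Ω)/L)), IsOpen (N : Set Gal((Linf L Ω)/L)) →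
    2 ^ (Nat.card (InfinitePlace (IntermediateField.fixedField N)) + 1) ≤ numHom2 N

/-- PART K5: infinite places of a finite subextension of `L_∞` of a totally real field, counted by
the complex conjugations `c τ`. -/
def StmK5 : Prop :=
  ∀ (L Ω : Type) [Field L] [NumberField L] [Field Ω] [Algebra L Ω] [IsAlgClosure L Ω],
    (∀ τ : L →+* ℂ, ComplexEmbedding.IsReal τ) →
    ∀ (φ : (L →+* ℂ) → (Linf L Ω →+* ℂ)) (c : (L →+* ℂ) → Gal((Linf L Ω)/L)),
      (∀ τ, (φ τ).comp (algebraMap L (Linf L Ω)) = τ) →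
      (∀ τ, ComplexEmbedding.IsConj (φ τ) (c τ)) →
      ∀ N : Subgroup Gal((Linf L Ω)/L), N.Normal → IsOpen (N : Set Gal((Linf L Ω)/L)) →
        Nat.card (InfinitePlace (IntermediateField.fixedField N)) = ∑ τ, orb N (c τ)

/-- PART K6: `L_∞ ⊆ F_S`. -/
def StmK6 : Prop :=
  ∀ (F Ω : Type) [Field F] [NumberField F] [Field Ω] [Algebra F Ω] [IsAlgClosure F Ω]
    (S : Set (HeightOneSpectrum (𝓞 F))), (∀ v : HeightOneSpectrum (𝓞 F), (2 : 𝓞 F) ∈ v.asIdeal → v ∈ S) →
    ∀ (L : IntermediateField F Ω) [FiniteDimensional F L], UnramifiedOutside S L →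
      (Linf L Ω).restrictScalars F ≤ FSmax S

/-- PART K7: `F_S/F` is Galois. -/
def StmK7 : Prop :=
  ∀ (F Ω : Type) [Field F] [NumberField F] [Field Ω] [Algebra F Ω] [IsAlgClosure F Ω]
    (S : Set (HeightOneSpectrum (𝓞 F))), IsGalois F (FSmax S : IntermediateField F Ω)

/-- PART K8: generation. -/
def StmK8 : Prop :=
  ∀ (L Ω : Type) [Field L] [NumberField L] [Field Ω] [Algebra L Ω] [IsAlgClosure L Ω],
    (∀ τ : L →+* ℂ, ComplexEmbedding.IsReal τ) → MZ294.TwoRat L →
    ∀ (φ : (L →+* ℂ) → (Linf L Ω →+* ℂ)) (c : (L →+* ℂ) → Gal((Linf L Ω)/L))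
      (σ : Gal((Linf L Ω)/L)),
      (∀ τ, (φ τ).comp (algebraMap L (Linf L Ω)) = τ) →
      (∀ τ, ComplexEmbedding.IsConj (φ τ) (c τ)) →
      (∀ r : Linf L Ω, r ^ 2 = 2 → σ r ≠ r) →
      TopGen c σ

end Kummer

/-! ## Part DIM: the dimension of `R/pR` -/

/-- PART DIM. -/
def StmDim : Prop :=
  ∀ (p : ℕ) [Fact p.Prime] (k : Type) [Field k] [Finite k] [CharP k p]
    (G : Type) [Group G] [TopologicalSpace G] [IsTopologicalGroup G] (n : ℕ)
    (ρbar : G →* GL (Fin n) k) (g₁ g₂ : G) (s₁ s₂ : k), s₁ ≠ 0 → s₂ ≠ 0 →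
    (∀ j : ℕ, 2 ≤ j → ∃ ρ : G →* GL (Fin n) (PowerSeries k),
      (∀ g, Matrix.GeneralLinearGroup.map PowerSeries.constantCoeff (ρ g) = ρbar g) ∧
      (∀ m : ℕ, IsOpen {g : G | ∀ a b : Fin n, (PowerSeries.X : PowerSeries k) ^ m ∣
          ((ρ g : Matrix (Fin n) (Fin n) (PowerSeries k)) - 1) a b}) ∧
      (ρ g₁ : Matrix (Fin n) (Fin n) (PowerSeries k)).trace =
        PowerSeries.C ((ρbar g₁ : Matrix (Fin n) (Fin n) k).trace) + PowerSeries.C s₁ * PowerSeries.X ∧
      (ρ g₂ : Matrix (Fin n) (Fin n) (PowerSeries k)).trace =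
        PowerSeries.C ((ρbar g₂ : Matrix (Fin n) (Fin n) k).trace) +
          PowerSeries.C s₂ * PowerSeries.X ^ j) →
    ∀ (R : CNL p k) (ρu : G →* GL (Fin n) R.A), IsUniversal ρbar R ρu →
      2 ≤ ringKrullDim (R.A ⧸ Ideal.span {(p : R.A)})

/-! ## The concrete data -/

/-- The algebraic closure of `ℚ` used throughout. -/
abbrev Om : Type := AlgebraicClosure ℚ

instance : Algebra.IsAlgebraic ℚ Om := AlgebraicClosure.isAlgebraic ℚ

instance : Algebra.IsIntegral ℚ Om := Algebra.isAlgebraic_iff_isIntegral.mp inferInstance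

lemma exists_s5 : ∃ s : Om, s ^ 2 = 5 := IsAlgClosed.exists_pow_nat_eq 5 (by norm_num)

/-- `√5`. -/
noncomputable def s5 : Om := exists_s5.choose

lemma s5_sq : s5 ^ 2 = 5 := exists_s5.choose_spec

/-- `F = ℚ(√5)`. -/
noncomputable def F5 : IntermediateField ℚ Om := IntermediateField.adjoin ℚ {s5}

instance : FiniteDimensional ℚ F5 := by
  unfold F5
  exact IntermediateField.adjoin.finiteDimensional (Algebra.IsIntegral.isIntegral s5)

instance : NumberField F5 := { to_charZero := inferInstance, to_finiteDimensional := inferInstance }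

instance : Algebra.IsAlgebraic F5 Om := Algebra.IsAlgebraic.tower_top (K := ℚ) F5

instance : IsAlgClosure F5 Om := ⟨inferInstance, inferInstance⟩

/-- The places of `F` above `30`. -/
def S30 : Set (HeightOneSpectrum (𝓞 F5)) := {v | (30 : 𝓞 F5) ∈ v.asIdeal}

lemma exists_zeta : ∃ z : Om, IsPrimitiveRoot z 9 :=
  HasEnoughRootsOfUnity.exists_primitiveRoot Om 9

/-- a primitive 9th root of unity -/
noncomputable def ze : Om := exists_zeta.choose

lemma ze_prim : IsPrimitiveRoot ze 9 := exists_zeta.choose_spec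

/-- `β = (1 + √5 √-3)/4`, of absolute value 1, with `√-3 = 2ζ³ + 1`. -/
noncomputable def be : Om := (1 + s5 * (2 * ze ^ 3 + 1)) / 4

lemma exists_y : ∃ y : Om, y ^ 9 = be := IsAlgClosed.exists_pow_nat_eq be (by norm_num)

/-- `y⁹ = β`. -/
noncomputable def yy : Om := exists_y.choose

lemma yy_pow : yy ^ 9 = be := exists_y.choose_spec

/-- `L = F(ζ + ζ⁻¹, y³ + y⁻³)`, a `C₃ × C₃`-extension of `F`, totally real. -/
noncomputable def Lf : IntermediateField F5 Om :=
  IntermediateField.adjoin F5 {ze + ze⁻¹, yy ^ 3 + (yy ^ 3)⁻¹}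

/-- PART L (helper294): the field `L`. -/
def StmL : Prop :=
  FiniteDimensional F5 Lf ∧ IsGalois F5 Lf ∧ Module.finrank F5 Lf = 9 ∧
  (∀ τ : Lf →+* ℂ, ComplexEmbedding.IsReal τ) ∧ UnramifiedOutside S30 Lf ∧
  ∃ _ : NumberField Lf, MZ294.TwoRat Lf

/-- PART RHO (helper294): the residual representation. -/
def StmRho : Prop :=
  ∃ (k : Type) (_ : Field k) (_ : Finite k) (_ : CharP k 2) (ρbar : GFS Om S30 →* GL (Fin 3) k)
    (ω : k), ω ≠ 0 ∧
    IsOpen (ρbar.ker : Set (GFS Om S30)) ∧ AbsIrred ρbar ∧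
    (∀ g : GFS Om S30, ρbar g ^ 27 = 1) ∧
    (∀ g : GFS Om S30, (∀ x : (FSmax S30 : IntermediateField F5 Om), (x : Om) ∈ Lf → g x = x) →
      ∃ a : k, (ρbar g : Matrix (Fin 3) (Fin 3) k) = a • (1 : Matrix (Fin 3) (Fin 3) k)) ∧
    ∃ g : GFS Om S30, (ρbar g : Matrix (Fin 3) (Fin 3) k) = !![0, 0, ω; 1, 0, 0; 0, 1, 0]

/-- PART DELTA: `δ = 1`. -/
def StmDelta : Prop :=
  ∀ (k : Type) [Field k] (ρbar : GFS Om S30 →* GL (Fin 3) k),
    (∀ g : GFS Om S30, g * g = 1 → ρbar g = 1) →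
    ∀ w : InfinitePlace F5 → InfinitePlace (FSmax S30 : IntermediateField F5 Om),
      (∀ v : InfinitePlace F5,
        (w v).comap (algebraMap F5 (FSmax S30 : IntermediateField F5 Om)) = v) →
      delta S30 ρbar w = 1

end MZ
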