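import Pool.Agent.W566.MZ.Asm3
import Pool.Agent.W384.MZTF
import Pool.Agent.W402.MZ.Lim
import Pool.Agent.W289.MZ.Frat
import Pool.Agent.W462.MZ.SZ
import Pool.Agent.W343.MZ.K12
import Pool.Agent.W47.MZ.K3
import Pool.Agent.W178.MZ.K6
import Pool.Agent.W368.MZ.K4
import Pool.Agent.W266.MZ.K5
import Pool.Agent.W561.MZ.K8
import Pool.Agent.W313.MZ.Dim
import Pool.Agent.W505.MZ.Delta
import Pool.Agent.W294.MZ.StmLproof
import Pool.Agent.W294.MZ.StmRhoproof

/-! # MP_aa8fd2_nt : everything except the arithmetic of the three sextic fields -/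

set_option autoImplicit false

namespace MZ

theorem counterexample_of (hN : MZ294.StmN) (hM : MZ294.StmM) (hP : MZ294.StmP) : Counterexample := by
  have hK1 : StmK1 := Pool.Agent.W343.MZ.stmK1
  have hK2 : StmK2 := Pool.Agent.W343.MZ.stmK2
  have hK3 : StmK3 := Pool.Agent.W47.MZK3.k3
  have hK7 : StmK7 := Pool.Agent.W178.MZK.K7
  exact final Pool.Agent.W384.MZTF.stmT Pool.Agent.W402.MZ.Lim.lim Pool.Agent.W462.MZSZ.StmSZ hK1 hK2
    (Pool.Agent.W368.MZK4.t_K4 hK3) Pool.Agent.W266.MZK5.t_K5 Pool.Agent.W178.MZK.K6 hK7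
    (Pool.Agent.W561.MZK8.stmK8 W289.MZ.stmFrat hK1 hK2 hK3) Pool.Agent.W313.MZDim.stmDim
    Pool.Agent.W505.MZ.delta (MZ294.stmL hN hM hP) (MZ294.stmRho hK7)

end MZ
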