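import Pool.Agent.W566.MZ.Asm2

/-!
# MP_aa8fd2_nt : assembly, final part
-/

set_option autoImplicit false

namespace MZ

open NumberField IsDedekindDomain Polynomial

/-! ### `√2 ∉ L` -/

lemma mem_F5 (x : Om) (hx : x ∈ F5) : ∃ a b : ℚ, x = algebraMap ℚ Om a + algebraMap ℚ Om b * s5 := by
  have hint : IsIntegral ℚ s5 := Algebra.IsIntegral.isIntegral s5
  have h1 : x ∈ (IntermediateField.adjoin ℚ {s5}).toSubalgebra := hx
  rw [IntermediateField.adjoin_simple_toSubalgebra_of_isAlgebraic hint.isAlgebraic,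
    Algebra.adjoin_singleton_eq_range_aeval] at h1
  obtain ⟨p, rfl⟩ := h1
  have hm : (X ^ 2 - C 5 : ℚ[X]).Monic := by
    have := monic_X_pow_sub_C (5 : ℚ) (n := 2) (by norm_num)
    exact this
  have h2 := Polynomial.modByMonic_add_div p (X ^ 2 - C 5 : ℚ[X])
  have h3 : (p %ₘ (X ^ 2 - C 5 : ℚ[X])).degree < 2 := by
    have := Polynomial.degree_modByMonic_lt p hm
    have h4 : (X ^ 2 - C 5 : ℚ[X]).degree = 2 := by
      have := degree_X_pow_sub_C (n := 2) (by norm_num) (5 : ℚ)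
      exact_mod_cast this
    rwa [h4] at this
  have h5 : aeval s5 (X ^ 2 - C 5 : ℚ[X]) = 0 := by
    simp [s5_sq]
  have h3' : (p %ₘ (X ^ 2 - C 5 : ℚ[X])).degree ≤ 1 := by
    rw [Polynomial.degree_le_iff_coeff_zero]
    intro m hm
    have hm' : (1 : ℕ) < m := by exact_mod_cast hm
    refine Polynomial.coeff_eq_zero_of_degree_lt (lt_of_lt_of_le h3 ?_)
    exact_mod_cast hm'
  have h6 := Polynomial.eq_X_add_C_of_degree_le_one (p := p %ₘ (X ^ 2 - C 5 : ℚ[X])) h3'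
  refine ⟨(p %ₘ (X ^ 2 - C 5 : ℚ[X])).coeff 0, (p %ₘ (X ^ 2 - C 5 : ℚ[X])).coeff 1, ?_⟩
  have h7 : aeval s5 p = aeval s5 (p %ₘ (X ^ 2 - C 5 : ℚ[X])) := by
    conv_lhs => rw [← h2]
    rw [map_add, map_mul, h5, zero_mul, add_zero]
  show aeval s5 p = _
  rw [h7]
  conv_lhs => rw [h6]
  simp
  ring

lemma s5_not_rat (q : ℚ) : algebraMap ℚ Om q ≠ s5 := by
  intro h
  have h1 : (algebraMap ℚ Om (q ^ 2)) = algebraMap ℚ Om 5 := by
    rw [map_pow, h, s5_sq, map_ofNat]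
  have h2 : q ^ 2 = 5 := (algebraMap ℚ Om).injective h1
  have h3 : IsSquare (5 : ℚ) := ⟨q, by rw [← h2]; ring⟩
  have h4 : IsSquare ((5 : ℕ) : ℚ) := by exact_mod_cast h3
  rw [Rat.isSquare_natCast_iff] at h4
  obtain ⟨n, hn⟩ := h4
  have : n ≤ 3 := by nlinarith
  interval_cases n <;> omega

lemma no_sqrt2_F5 (x : Om) (hx : x ∈ F5) : x ^ 2 ≠ 2 := by
  intro h
  obtain ⟨a, b, rfl⟩ := mem_F5 x hx
  have h1 : algebraMap ℚ Om (a ^ 2 + 5 * b ^ 2 - 2) + algebraMap ℚ Om (2 * a * b) * s5 = 0 := by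
    have : (algebraMap ℚ Om a + algebraMap ℚ Om b * s5) ^ 2 - 2 = 0 := by rw [h]; ring
    have h5 := s5_sq
    rw [map_sub, map_add, map_mul, map_mul, map_mul, map_pow, map_pow, map_ofNat, map_ofNat]
    linear_combination this - (algebraMap ℚ Om b) ^ 2 * h5
  by_cases hab : a * b = 0
  · have h2 : a ^ 2 + 5 * b ^ 2 - 2 = 0 := by
      have h3 : (2 * a * b : ℚ) = 0 := by rw [mul_assoc, hab, mul_zero]
      rw [h3, map_zero, zero_mul, add_zero] at h1
      exact (map_eq_zero_iff _ (algebraMap ℚ Om).injective).mp h1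
    rcases mul_eq_zero.mp hab with h3 | h3
    · subst h3
      have h4 : IsSquare (10 : ℚ) := ⟨5 * b, by linear_combination (-5 : ℚ) * h2⟩
      have h5 : IsSquare ((10 : ℕ) : ℚ) := by exact_mod_cast h4
      rw [Rat.isSquare_natCast_iff] at h5
      obtain ⟨n, hn⟩ := h5
      have : n ≤ 4 := by nlinarith
      interval_cases n <;> omega
    · subst h3
      have h4 : IsSquare (2 : ℚ) := ⟨a, by linear_combination -h2⟩
      have h5 : IsSquare ((2 : ℕ) : ℚ) := by exact_mod_cast h4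
      rw [Rat.isSquare_natCast_iff] at h5
      obtain ⟨n, hn⟩ := h5
      have : n ≤ 4 := by nlinarith
      interval_cases n <;> omega
  · refine s5_not_rat (-(a ^ 2 + 5 * b ^ 2 - 2) / (2 * a * b)) ?_
    have hab' : algebraMap ℚ Om (2 * a * b) ≠ 0 := by
      rw [Ne, map_eq_zero_iff _ (algebraMap ℚ Om).injective, mul_assoc]
      exact mul_ne_zero two_ne_zero hab
    rw [map_div₀, div_eq_iff hab', map_neg]
    linear_combination -h1

lemma no_sqrt2_Lf [FiniteDimensional F5 Lf] (h9 : Module.finrank F5 Lf = 9) (x : Lf) : x ^ 2 ≠ 2 := by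
  intro h
  have hint : IsIntegral F5 x := Algebra.IsIntegral.isIntegral x
  have h1 : (minpoly F5 x).natDegree ∣ 9 := by
    rw [← h9]
    exact minpoly.degree_dvd hint
  have h2 : minpoly F5 x ∣ (X ^ 2 - C 2 : F5[X]) := by
    apply minpoly.dvd
    rw [map_sub, map_pow, aeval_X, aeval_C, h, map_ofNat, sub_self]
  have h3 : (minpoly F5 x).natDegree ≤ 2 := by
    have := Polynomial.natDegree_le_of_dvd h2 (X_pow_sub_C_ne_zero (by norm_num) _)
    rwa [natDegree_X_pow_sub_C] at this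
  have h4 : (minpoly F5 x).natDegree = 1 := by
    have : (minpoly F5 x).natDegree ≤ 9 := Nat.le_of_dvd (by norm_num) h1
    interval_cases (minpoly F5 x).natDegree
    · omega
    · rfl
    · omega
  obtain ⟨y, hy⟩ := minpoly.natDegree_eq_one_iff.mp h4
  have h5 : (y : Om) ^ 2 = 2 := by
    have h6 : (algebraMap Lf Om x) ^ 2 = 2 := by rw [← map_pow, h, map_ofNat]
    rw [← hy, ← IsScalarTower.algebraMap_apply] at h6
    exact h6
  exact no_sqrt2_F5 y y.2 h5

/-! ### finiteness of `S30` -/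

lemma S30_finite : S30.Finite := by
  have h0 : (Ideal.span {(30 : 𝓞 F5)}) ≠ 0 := by
    rw [Ne, Ideal.zero_eq_bot, Ideal.span_singleton_eq_bot]
    norm_num
  refine (Ideal.finite_factors h0).subset ?_
  intro v hv
  show v.asIdeal ∣ _
  rw [Ideal.dvd_iff_le, Ideal.span_singleton_le_iff_mem]
  exact hv

lemma two_mem_S30 (v : HeightOneSpectrum (𝓞 F5)) (h : (2 : 𝓞 F5) ∈ v.asIdeal) : v ∈ S30 := by
  show (30 : 𝓞 F5) ∈ v.asIdeal
  have : (30 : 𝓞 F5) = 15 * 2 := by norm_num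
  rw [this]
  exact Ideal.mul_mem_left _ _ h

lemma exists_w (K : IntermediateField F5 Om) :
    ∃ w : InfinitePlace F5 → InfinitePlace K, ∀ v, (w v).comap (algebraMap F5 K) = v := by
  have : ∀ v : InfinitePlace F5, ∃ w : InfinitePlace K, w.comap (algebraMap F5 K) = v := by
    intro v
    let φ := v.embedding
    letI := φ.toAlgebra
    haveI : Algebra.IsAlgebraic F5 K := Algebra.IsAlgebraic.tower_bot (K := F5) (L := K) (A := Om)
    let f : K →ₐ[F5] ℂ := IsAlgClosed.lift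
    refine ⟨InfinitePlace.mk f.toRingHom, ?_⟩
    rw [InfinitePlace.comap_mk]
    have : f.toRingHom.comp (algebraMap F5 K) = φ := f.comp_algebraMap
    rw [this]
    exact InfinitePlace.mk_embedding v
  choose w hw using this
  exact ⟨w, hw⟩

/-- The counterexample: there are data with `F = ℚ(√5)`, `n = 3`, `p = 2` for which `δ(ρ̄) = 1` but
every universal deformation ring `R` has `dim R/2R ≥ 2`. -/
def Counterexample : Prop :=
  ∃ (F Ω : Type) (_ : Field F) (_ : NumberField F) (_ : Field Ω) (_ : Algebra F Ω)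
    (_ : IsAlgClosure F Ω) (S : Set (HeightOneSpectrum (𝓞 F)))
    (k : Type) (_ : Field k) (_ : Finite k) (_ : CharP k 2)
    (ρbar : GFS Ω S →* GL (Fin 3) k)
    (w : InfinitePlace F → InfinitePlace (FSmax S : IntermediateField F Ω)),
    (∃ s : F, s ^ 2 = 5 ∧ IntermediateField.adjoin ℚ {s} = ⊤) ∧
    IsDatum F Ω S 2 k 3 ρbar w ∧ delta S ρbar w = 1 ∧
    ∀ (R : CNL 2 k) (ρu : GFS Ω S →* GL (Fin 3) R.A), IsUniversal ρbar R ρu →
      2 ≤ ringKrullDim (R.A ⧸ Ideal.span {((2 : ℕ) : R.A)})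

lemma not_mazur_of (h : Counterexample) : ¬ MazurDimension := by
  intro hM
  obtain ⟨F, Ω, iF, iN, iΩ, iA, iC, S, k, ik, iFin, iP, ρbar, w, -, hD, hδ, hR⟩ := h
  haveI : Fact (Nat.Prime 2) := ⟨Nat.prime_two⟩
  obtain ⟨R, ρu, hu, -, d, hd, hd'⟩ := hM F Ω S 2 k 3 ρbar w hD
  have h2 := hR R ρu hu
  rw [hδ] at hd'
  have : d = 1 := by exact_mod_cast hd'
  subst this
  rw [hd] at h2
  exact absurd h2 (by decide)

theorem final (hT : StmT) (hLim : StmLim) (hSZ : StmSZ) (hK1 : StmK1) (hK2 : StmK2)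
    (hK4 : StmK4) (hK5 : StmK5) (hK6 : StmK6) (hK7 : StmK7) (hK8 : StmK8)
    (hDim : StmDim) (hDelta : StmDelta) (hL : StmL) (hRho : StmRho) : Counterexample := by
  obtain ⟨hfd, hgal, h9, hreal, hunr, hNF, htwo⟩ := hL
  obtain ⟨k, ik, iFin, iP, ρbar, ω, hω, hρo, hρi, hρ27, hρs, hρT⟩ := hRho
  haveI : IsAlgClosure Lf Om := ⟨inferInstance, Algebra.IsAlgebraic.tower_top (K := F5) Lf⟩
  haveI hG1 : IsGalois F5 (Linf Lf Om) := hK1.2 F5 Lf Om hgal
  haveI hG2 : IsGalois Lf (Linf Lf Om) := hK1.2 Lf Lf Om inferInstance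
  haveI hG3 : IsGalois F5 (FSmax S30 : IntermediateField F5 Om) := hK7 F5 Om S30
  have hle : (Linf Lf Om).restrictScalars F5 ≤ FSmax S30 := hK6 F5 Om S30 two_mem_S30 Lf hunr
  let inc : (Linf Lf Om) →+* (FSmax S30 : IntermediateField F5 Om) :=
    { toFun := fun x => ⟨(x : Om), hle x.2⟩
      map_one' := rfl
      map_mul' := fun _ _ => rfl
      map_zero' := rfl
      map_add' := fun _ _ => rfl }
  letI : Algebra (Linf Lf Om) (FSmax S30 : IntermediateField F5 Om) := inc.toAlgebra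
  haveI : IsScalarTower F5 (Linf Lf Om) (FSmax S30 : IntermediateField F5 Om) :=
    IsScalarTower.of_algebraMap_eq (fun x => Subtype.ext rfl)
  -- √2
  obtain ⟨r₀, hr₀⟩ : ∃ r : Om, r ^ 2 = 2 := IsAlgClosed.exists_pow_nat_eq 2 (by norm_num)
  have hr₀mem : r₀ ∈ Linf Lf Om := by
    refine hK1.1 Lf Om 2 r₀ ?_ ⟨two_ne_zero, 1, ?_, ?_⟩ hr₀
    · have := (Linf Lf Om).algebraMap_mem (2 : Lf)
      rwa [map_ofNat] at this
    · have : (2 ^ 1 * 2 : Om) = algebraMap ℤ Om 4 := by norm_num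
      rw [this]; exact isIntegral_algebraMap
    · have : (2 ^ 1 * 2⁻¹ : Om) = 1 := by norm_num
      rw [this]; exact isIntegral_one
  have hr2 : (⟨r₀, hr₀mem⟩ : Linf Lf Om) ^ 2 = 2 := Subtype.ext hr₀
  have hrn : (⟨r₀, hr₀mem⟩ : Linf Lf Om) ∉ (algebraMap Lf (Linf Lf Om)).range := by
    rintro ⟨x, hx⟩
    refine no_sqrt2_Lf h9 x ?_
    apply (algebraMap Lf (Linf Lf Om)).injective
    rw [map_pow, hx, hr2, map_ofNat]
  obtain ⟨g₁, g₂, s₁, s₂, hs₁, hs₂, hfam⟩ := asm2 hT hLim hSZ (F := F5) (L := Lf)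
    (E := Linf Lf Om) (K := (FSmax S30 : IntermediateField F5 Om)) h9 hreal ⟨r₀, hr₀mem⟩ hr2 hrn
    (hK2 Lf Om)
    (fun φ c h1 h2 N hN hNo => by
      have e1 := hK4 Lf Om N hNo
      rw [hK5 Lf Om hreal φ c h1 h2 N hN hNo] at e1
      exact e1)
    (fun φ c σ h1 h2 h3 => hK8 Lf Om hreal htwo φ c σ h1 h2 h3)
    ρbar ω hρo
    (fun g hg => hρs g (fun x hx => hg ⟨(x : Om), hx⟩))
    hρT
  obtain ⟨w, hw⟩ := exists_w (FSmax S30 : IntermediateField F5 Om)
  haveI : Fact (Nat.Prime 2) := ⟨Nat.prime_two⟩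
  have hinv : ∀ g : GFS Om S30, g * g = 1 → ρbar g = 1 := by
    intro g hg
    have h1 : ρbar g ^ 2 = 1 := by rw [sq, ← map_mul, hg, map_one]
    have h2 := hρ27 g
    calc ρbar g = ρbar g ^ 27 * (ρbar g ^ 2)⁻¹ ^ 13 := by
          rw [inv_pow, ← pow_mul, eq_mul_inv_iff_mul_eq, ← pow_succ']
      _ = 1 := by rw [h1, h2]; simp
  refine ⟨F5, Om, inferInstance, inferInstance, inferInstance, inferInstance, inferInstance, S30, k,
    ik, iFin, iP, ρbar, w, ?_, ?_, hDelta k ρbar hinv w hw, ?_⟩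
  · refine ⟨⟨s5, IntermediateField.mem_adjoin_simple_self ℚ s5⟩, Subtype.ext s5_sq, ?_⟩
    rw [eq_top_iff]
    rintro ⟨x, hx⟩ -
    obtain ⟨a, b, hab⟩ := mem_F5 x hx
    have : (⟨x, hx⟩ : F5) = algebraMap ℚ F5 a + algebraMap ℚ F5 b *
        ⟨s5, IntermediateField.mem_adjoin_simple_self ℚ s5⟩ := by
      apply Subtype.ext
      exact hab
    rw [this]
    exact add_mem (IntermediateField.algebraMap_mem _ _)
      (mul_mem (IntermediateField.algebraMap_mem _ _) (IntermediateField.mem_adjoin_simple_self ℚ _))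
  · exact ⟨by norm_num, by norm_num, S30_finite, fun v hv => two_mem_S30 v (by exact_mod_cast hv),
      hρo, hρi, hw⟩
  · intro R ρu hu
    exact hDim 2 k (GFS Om S30) 3 ρbar g₁ g₂ s₁ s₂ hs₁ hs₂ hfam R ρu hu

end MZ
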