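import Mathlib

/-!
# Continuity of restriction maps between Galois groups (types version)
-/

set_option autoImplicit false

namespace MZ

open Topology

section

variable {F E : Type} [Field F] [Field E] [Algebra F E]

lemma exists_finset_fix (M : IntermediateField F E) [FiniteDimensional F M] :
    ∃ t : Finset E, (∀ x ∈ t, x ∈ M) ∧
      ∀ g : Gal(E/F), (∀ x ∈ t, g x = x) → g ∈ M.fixingSubgroup := by
  classical
  obtain ⟨s, hs⟩ := Module.Finite.fg_top (R := F) (M := M)
  refine ⟨s.image (fun x : M => (x : E)), ?_, ?_⟩
  · intro x hx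
    obtain ⟨y, -, rfl⟩ := Finset.mem_image.mp hx
    exact y.2
  · intro g hg
    rw [IntermediateField.mem_fixingSubgroup_iff]
    intro x hx
    have h1 : (⟨x, hx⟩ : M) ∈ Submodule.span F (s : Set M) := by rw [hs]; trivial
    have h2 : ∀ y : M, y ∈ Submodule.span F (s : Set M) → g (y : E) = y := by
      intro y hy
      induction hy using Submodule.span_induction with
      | mem y hy => exact hg y (Finset.mem_image_of_mem _ hy)
      | zero => simp
      | add a b _ _ ha hb => simp [ha, hb]
      | smul c a _ ha =>
        show g ((c • a : M) : E) = _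
        rw [IntermediateField.coe_smul, map_smul, ha]
    exact h2 ⟨x, hx⟩ h1

end

/-- a hom into a Galois group is continuous if stabilisers pull back to open sets -/
lemma continuous_of_stab {F E Q : Type} [Field F] [Field E] [Algebra F E] [Group Q]
    [TopologicalSpace Q] [IsTopologicalGroup Q] (f : Q →* Gal(E/F))
    (h : ∀ x : E, IsOpen {q : Q | f q x = x}) : Continuous f := by
  refine continuous_of_continuousAt_one f ?_
  intro s hs
  rw [map_one, krullTopology_mem_nhds_one_iff] at hs
  obtain ⟨M, hM, hMs⟩ := hs
  obtain ⟨t, -, ht⟩ := exists_finset_fix M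
  have h1 : IsOpen (⋂ x ∈ t, {q : Q | f q x = x}) :=
    isOpen_biInter_finset (fun x _ => h x)
  have h2 : (⋂ x ∈ t, {q : Q | f q x = x}) ∈ 𝓝 (1 : Q) := by
    refine h1.mem_nhds ?_
    simp
  refine Filter.mem_map.mpr (Filter.mem_of_superset h2 ?_)
  intro q hq
  refine hMs (ht (f q) ?_)
  intro x hx
  exact Set.mem_iInter₂.mp hq x hx

lemma isOpen_stab {F E : Type} [Field F] [Field E] [Algebra F E] [Algebra.IsIntegral F E] (x : E) :
    IsOpen {q : Gal(E/F) | q x = x} := by
  have := stabilizer_isOpen_of_isIntegral (K := F) x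
  exact this

section

variable {F L E : Type} [Field F] [Field L] [Field E] [Algebra F L] [Algebra L E] [Algebra F E]
  [IsScalarTower F L E]

/-- `Gal(E/L) → Gal(E/F)` -/
noncomputable def jR (F L E : Type) [Field F] [Field L] [Field E] [Algebra F L] [Algebra L E]
    [Algebra F E] [IsScalarTower F L E] : Gal(E/L) →* Gal(E/F) :=
  AlgEquiv.restrictScalarsHom F

@[simp] lemma jR_apply (q : Gal(E/L)) (x : E) : jR F L E q x = q x := rfl

lemma jR_inj : Function.Injective (jR F L E) := AlgEquiv.restrictScalarsHom_injective F

lemma mem_range_jR (g : Gal(E/F)) :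
    g ∈ (jR F L E).range ↔ ∀ x : L, g (algebraMap L E x) = algebraMap L E x := by
  constructor
  · rintro ⟨q, rfl⟩ x
    rw [jR_apply]
    exact q.commutes x
  · intro h
    refine ⟨AlgEquiv.ofRingEquiv (f := (g : E ≃+* E)) h, ?_⟩
    ext x
    rfl

lemma continuous_jR [Algebra.IsIntegral L E] : Continuous (jR F L E) := by
  refine continuous_of_stab _ (fun x => ?_)
  exact isOpen_stab (F := L) x

lemma isOpenMap_jR [FiniteDimensional F L] : IsOpenMap (jR F L E) := by
  intro U hU
  rw [isOpen_iff_mem_nhds]
  rintro _ ⟨q, hq, rfl⟩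
  have h1 : (fun p => q * p) ⁻¹' U ∈ 𝓝 (1 : Gal(E/L)) := by
    refine (hU.preimage (continuous_const_mul q)).mem_nhds ?_
    simpa using hq
  rw [krullTopology_mem_nhds_one_iff] at h1
  obtain ⟨M, hM, hMs⟩ := h1
  -- the same field over F
  let M' : IntermediateField F E := M.restrictScalars F
  haveI : FiniteDimensional F M' := by
    have : FiniteDimensional F M := FiniteDimensional.trans F L M
    exact this
  have h2 : (M'.fixingSubgroup : Set Gal(E/F)) ∈ 𝓝 (1 : Gal(E/F)) := by
    rw [krullTopology_mem_nhds_one_iff]
    exact ⟨M', inferInstance, subset_rfl⟩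
  have h3 : (fun p => (jR F L E q)⁻¹ * p) ⁻¹' (M'.fixingSubgroup : Set Gal(E/F)) ∈ 𝓝 (jR F L E q) := by
    refine (continuous_const_mul _).continuousAt.preimage_mem_nhds ?_
    simpa using h2
  refine Filter.mem_of_superset h3 ?_
  intro g hg
  have hg' : (jR F L E q)⁻¹ * g ∈ M'.fixingSubgroup := hg
  rw [IntermediateField.mem_fixingSubgroup_iff] at hg'
  have h4 : (jR F L E q)⁻¹ * g ∈ (jR F L E).range := by
    rw [mem_range_jR]
    intro x
    exact hg' _ (M.algebraMap_mem x)
  obtain ⟨p, hp⟩ := h4
  refine ⟨q * p, ?_, ?_⟩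
  · have : p ∈ M.fixingSubgroup := by
      rw [IntermediateField.mem_fixingSubgroup_iff]
      intro x hx
      have := hg' x hx
      rw [← hp] at this
      exact this
    exact hMs this
  · rw [map_mul, hp, mul_inv_cancel_left]

lemma range_jR_eq_ker [Normal F L] :
    (jR F L E).range = (AlgEquiv.restrictNormalHom (F := F) (K₁ := E) L).ker := by
  ext g
  rw [mem_range_jR, MonoidHom.mem_ker]
  constructor
  · intro h
    ext x
    apply (algebraMap L E).injective
    rw [AlgEquiv.one_apply]
    have := AlgEquiv.restrictNormal_commutes g L x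
    rw [h x] at this
    exact this
  · intro h x
    have := AlgEquiv.restrictNormal_commutes g L x
    rw [← this]
    have h2 : g.restrictNormal L = 1 := h
    rw [h2, AlgEquiv.one_apply]

end

section

variable {F E K : Type} [Field F] [Field E] [Field K] [Algebra F E] [Algebra E K] [Algebra F K]
  [IsScalarTower F E K] [Normal F E]

lemma res_apply (g : Gal(K/F)) (x : E) :
    algebraMap E K (AlgEquiv.restrictNormalHom (F := F) (K₁ := K) E g x) = g (algebraMap E K x) :=
  AlgEquiv.restrictNormal_commutes g E x

lemma continuous_res [Algebra.IsIntegral F K] :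
    Continuous (AlgEquiv.restrictNormalHom (F := F) (K₁ := K) E) := by
  refine continuous_of_stab _ (fun x => ?_)
  have := isOpen_stab (F := F) (algebraMap E K x)
  convert this using 1
  ext g
  constructor
  · intro h
    have h' : AlgEquiv.restrictNormalHom (F := F) (K₁ := K) E g x = x := h
    show g (algebraMap E K x) = algebraMap E K x
    rw [← res_apply, h']
  · intro h
    have h' : g (algebraMap E K x) = algebraMap E K x := h
    apply (algebraMap E K).injective
    rw [res_apply, h']

end

end MZ
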