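import Pool.Agent.W566.MZ.Asm1
import Pool.Agent.W566.MZ.Gal

/-!
# MP_aa8fd2_nt : assembly, Galois part
-/

set_option autoImplicit false

namespace MZ

open NumberField Matrix

section mats

variable {k : Type} [Field k]

/-- `T e₀ = e₁, T e₁ = e₂, T e₂ = ω e₀` -/
def TM (ω : k) : Matrix (Fin 3) (Fin 3) k := !![0, 0, ω; 1, 0, 0; 0, 1, 0]

lemma TM_sq (ω : k) : TM ω * TM ω = !![0, ω, 0; 0, 0, ω; 1, 0, 0] := by
  unfold TM
  ext i j
  fin_cases i <;> fin_cases j <;> simp [Matrix.mul_apply, Fin.sum_univ_three]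

/-- nilpotent part `N_j = X E₀₂ + X^j E₁₂` -/
noncomputable def NM (k : Type) [Field k] (j : ℕ) : Matrix (Fin 3) (Fin 3) (PowerSeries k) :=
  !![0, 0, PowerSeries.X; 0, 0, PowerSeries.X ^ j; 0, 0, 0]

lemma NM_sq (j : ℕ) : NM k j * NM k j = 0 := by
  unfold NM
  ext i j
  fin_cases i <;> fin_cases j <;> simp [Matrix.mul_apply, Fin.sum_univ_three]

lemma two_eq_zero_ps [CharP k 2] : (2 : PowerSeries k) = 0 := by
  have h : ((2 : ℕ) : k) = 0 := CharP.cast_eq_zero k 2
  have h1 : ((2 : ℕ) : PowerSeries k) = PowerSeries.C ((2 : ℕ) : k) := (map_natCast _ 2).symm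
  rw [h, map_zero] at h1
  exact_mod_cast h1

/-- `X_j = 1 + N_j`, an involution in characteristic 2 -/
noncomputable def XM (k : Type) [Field k] [CharP k 2] (j : ℕ) : GL (Fin 3) (PowerSeries k) where
  val := 1 + NM k j
  inv := 1 + NM k j
  val_inv := by
    have h2 : (NM k j : Matrix (Fin 3) (Fin 3) (PowerSeries k)) + NM k j = 0 := by
      have : (2 : PowerSeries k) = 0 := two_eq_zero_ps
      rw [← two_smul (PowerSeries k), this, zero_smul]
    rw [mul_add, add_mul, add_mul, mul_one, mul_one, one_mul, NM_sq, add_zero, add_assoc, h2, add_zero]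
  inv_val := by
    have h2 : (NM k j : Matrix (Fin 3) (Fin 3) (PowerSeries k)) + NM k j = 0 := by
      have : (2 : PowerSeries k) = 0 := two_eq_zero_ps
      rw [← two_smul (PowerSeries k), this, zero_smul]
    rw [mul_add, add_mul, add_mul, mul_one, mul_one, one_mul, NM_sq, add_zero, add_assoc, h2, add_zero]

lemma XM_sq [CharP k 2] (j : ℕ) : XM k j * XM k j = 1 := by
  have : XM k j * (XM k j)⁻¹ = 1 := mul_inv_cancel _
  exact this

lemma XM_red [CharP k 2] (j : ℕ) (hj : j ≠ 0) :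
    Matrix.GeneralLinearGroup.map PowerSeries.constantCoeff (XM k j) = 1 := by
  ext a b
  rw [Matrix.GeneralLinearGroup.map_apply]
  show PowerSeries.constantCoeff ((1 + NM k j) a b) = (1 : Matrix (Fin 3) (Fin 3) k) a b
  unfold NM
  fin_cases a <;> fin_cases b <;> simp [hj]

end mats

theorem asm2 (hT : StmT) (hLim : StmLim) (hSZ : StmSZ)
    {F L E K : Type} [Field F] [NumberField F] [Field L] [NumberField L] [Field E] [Field K]
    [Algebra F L] [Algebra L E] [Algebra F E] [IsScalarTower F L E]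
    [Algebra E K] [Algebra F K] [IsScalarTower F E K]
    [FiniteDimensional F L] [IsGalois F L] [IsGalois F E] [IsGalois L E] [IsGalois F K]
    (h9 : Module.finrank F L = 9)
    (hreal : ∀ τ : L →+* ℂ, ComplexEmbedding.IsReal τ)
    (r : E) (hr2 : r ^ 2 = 2) (hr : r ∉ (algebraMap L E).range)
    (hpro : ProTwo Gal(E/L))
    (hlow : ∀ (φ : (L →+* ℂ) → (E →+* ℂ)) (c : (L →+* ℂ) → Gal(E/L)),
      (∀ τ, (φ τ).comp (algebraMap L E) = τ) → (∀ τ, ComplexEmbedding.IsConj (φ τ) (c τ)) →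
      ∀ N : Subgroup Gal(E/L), N.Normal → IsOpen (N : Set Gal(E/L)) →
        2 ^ (∑ τ, orb N (c τ) + 1) ≤ numHom2 N)
    (hgen : ∀ (φ : (L →+* ℂ) → (E →+* ℂ)) (c : (L →+* ℂ) → Gal(E/L)) (σ : Gal(E/L)),
      (∀ τ, (φ τ).comp (algebraMap L E) = τ) → (∀ τ, ComplexEmbedding.IsConj (φ τ) (c τ)) →
      (∀ r : E, r ^ 2 = 2 → σ r ≠ r) → TopGen c σ)
    {k : Type} [Field k] [Finite k] [CharP k 2] (ρbar : Gal(K/F) →* GL (Fin 3) k)
    (ω : k) (hρo : IsOpen (ρbar.ker : Set Gal(K/F)))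
    (hρs : ∀ g : Gal(K/F), (∀ x : L, g (algebraMap E K (algebraMap L E x)) =
        algebraMap E K (algebraMap L E x)) →
      ∃ a : k, (ρbar g : Matrix (Fin 3) (Fin 3) k) = a • (1 : Matrix (Fin 3) (Fin 3) k))
    (hρT : ∃ g, (ρbar g : Matrix (Fin 3) (Fin 3) k) = !![0, 0, ω; 1, 0, 0; 0, 1, 0]) :
    ∃ (g₁ g₂ : Gal(K/F)) (s₁ s₂ : k), s₁ ≠ 0 ∧ s₂ ≠ 0 ∧
      ∀ j : ℕ, 2 ≤ j → ∃ ρ : Gal(K/F) →* GL (Fin 3) (PowerSeries k),
      (∀ g, Matrix.GeneralLinearGroup.map PowerSeries.constantCoeff (ρ g) = ρbar g) ∧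
      (∀ m : ℕ, IsOpen {g : Gal(K/F) | ∀ a b : Fin 3, (PowerSeries.X : PowerSeries k) ^ m ∣
          ((ρ g : Matrix (Fin 3) (Fin 3) (PowerSeries k)) - 1) a b}) ∧
      (ρ g₁ : Matrix (Fin 3) (Fin 3) (PowerSeries k)).trace =
        PowerSeries.C ((ρbar g₁ : Matrix (Fin 3) (Fin 3) k).trace) + PowerSeries.C s₁ * PowerSeries.X ∧
      (ρ g₂ : Matrix (Fin 3) (Fin 3) (PowerSeries k)).trace =
        PowerSeries.C ((ρbar g₂ : Matrix (Fin 3) (Fin 3) k).trace) +
          PowerSeries.C s₂ * PowerSeries.X ^ j := by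
  classical
  haveI : CharZero E := charZero_of_injective_algebraMap (algebraMap F E).injective
  -- basic group data
  let P := Gal(E/L)
  let G := Gal(E/F)
  let j : Gal(E/L) →* Gal(E/F) := jR F L E
  have hjinj : Function.Injective j := jR_inj
  have hjo : IsOpenMap j := isOpenMap_jR
  have hjc : Continuous j := continuous_jR
  let rL : Gal(E/F) →* Gal(L/F) := AlgEquiv.restrictNormalHom L
  have hrange : j.range = rL.ker := range_jR_eq_ker
  have hjn : j.range.Normal := by rw [hrange]; exact MonoidHom.normal_ker _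
  have hrLsurj : Function.Surjective rL := AlgEquiv.restrictNormalHom_surjective E
  have hPopen : IsOpen (j.range : Set Gal(E/F)) := by
    rw [MonoidHom.coe_range]
    exact hjo.isOpen_range
  have hcard9 : Nat.card (Gal(E/F) ⧸ j.range) = 9 := by
    rw [hrange]
    rw [Nat.card_congr (QuotientGroup.quotientKerEquivOfSurjective rL hrLsurj).toEquiv,
      IsGalois.card_aut_eq_finrank, h9]
  -- the element √2
  have hr0 : r ≠ 0 := by
    rintro rfl
    norm_num at hr2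
  have hsq : ∀ g : Gal(E/F), g r = r ∨ g r = -r := by
    intro g
    have : (g r) ^ 2 = r ^ 2 := by rw [← map_pow, hr2, map_ofNat]
    exact sq_eq_sq_iff_eq_or_eq_neg.mp this
  have hneg : r ≠ -r := by
    intro h
    have : (2 : E) * r = 0 := by linear_combination h
    rcases mul_eq_zero.mp this with h2 | h2
    · norm_num at h2
    · exact hr0 h2
  let D : Subgroup Gal(E/F) := j.range ⊓ MulAction.stabilizer Gal(E/F) r
  have hDmem : ∀ g, g ∈ D ↔ g ∈ j.range ∧ g r = r := fun g => Iff.rfl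
  have hDn : D.Normal := by
    constructor
    intro n hn g
    rw [hDmem] at hn ⊢
    refine ⟨hjn.conj_mem _ hn.1 g, ?_⟩
    show g (n (g⁻¹ r)) = r
    have hginv : g (g⁻¹ r) = r := by
      show (g * g⁻¹) r = r
      rw [mul_inv_cancel, AlgEquiv.one_apply]
    rcases hsq g⁻¹ with h | h
    · rw [h] at hginv ⊢
      rw [hn.2, hginv]
    · rw [h] at hginv ⊢
      rw [map_neg, hn.2, hginv]
  have hDo : IsOpen (D : Set Gal(E/F)) := by
    rw [Subgroup.coe_inf]
    exact hPopen.inter (isOpen_stab r)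
  -- some element of P moves r
  obtain ⟨p₀, hp₀⟩ : ∃ p : Gal(E/L), p r ≠ r := by
    by_contra hcon
    push Not at hcon
    exact hr ((InfiniteGalois.mem_range_algebraMap_iff_fixed r).mpr hcon)
  have hDidx : D.relIndex j.range = 2 := by
    rw [Subgroup.relIndex, Subgroup.index_eq_two_iff]
    refine ⟨⟨j p₀, p₀, rfl⟩, ?_⟩
    rintro ⟨b, hb⟩
    rw [Subgroup.mem_subgroupOf, Subgroup.mem_subgroupOf]
    have e1 : (j p₀) r = -r := by
      rcases hsq (j p₀) with h | h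
      · exact absurd h hp₀
      · exact h
    simp only [hDmem, Subgroup.coe_mul]
    rcases hsq b with h | h
    · right
      refine ⟨⟨hb, h⟩, ?_⟩
      rintro ⟨-, h2⟩
      have : b ((j p₀) r) = r := h2
      rw [e1, map_neg, h] at this
      exact hneg this.symm
    · left
      refine ⟨⟨mul_mem hb ⟨p₀, rfl⟩, ?_⟩, ?_⟩
      · show b ((j p₀) r) = r
        rw [e1, map_neg, h, neg_neg]
      · rintro ⟨-, h2⟩
        rw [h] at h2
        exact hneg h2.symm
  have hpro' : ∀ N : Subgroup Gal(E/F), N.Normal → IsOpen (N : Set Gal(E/F)) → N ≤ j.range →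
      ∃ e : ℕ, N.relIndex j.range = 2 ^ e := by
    intro N hN hNo _
    obtain ⟨e, he⟩ := hpro (N.comap j) (hN.comap j) (hNo.preimage hjc)
    refine ⟨e, ?_⟩
    rw [← he, ← Subgroup.index_comap]
    rfl
  obtain ⟨A, σ₀, hA, hA', hσP, hσD, hσA⟩ := hSZ Gal(E/F) j.range D hjn hPopen hDn hDo inf_le_left
    hDidx ⟨2, by rw [hcard9]; norm_num⟩ hpro'
  obtain ⟨σ, rfl⟩ := hσP
  have hσr : ∀ r' : E, r' ^ 2 = 2 → σ r' ≠ r' := by
    intro r' hr' hfix
    have : r' = r ∨ r' = -r := sq_eq_sq_iff_eq_or_eq_neg.mp (by rw [hr', hr2])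
    apply hσD
    rw [hDmem]
    refine ⟨⟨σ, rfl⟩, ?_⟩
    show σ r = r
    rcases this with h | h
    · rw [← h]; exact hfix
    · rw [h, map_neg, neg_inj] at hfix; exact hfix
  -- embeddings
  have hext : ∀ v : F →+* ℂ, ∃ φ : E →+* ℂ, φ.comp (algebraMap F E) = v := by
    intro v
    letI := v.toAlgebra
    haveI : Algebra.IsAlgebraic F E := inferInstance
    let f : E →ₐ[F] ℂ := IsAlgClosed.lift
    exact ⟨f.toRingHom, f.comp_algebraMap⟩
  choose Φ hΦ using hext
  -- complex conjugations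
  have hconj : ∀ φ : E →+* ℂ, ∃ c : Gal(E/L), ComplexEmbedding.IsConj φ c := by
    intro φ
    have h1 : φ.comp (algebraMap L E) = (ComplexEmbedding.conjugate φ).comp (algebraMap L E) := by
      have := hreal (φ.comp (algebraMap L E))
      rw [ComplexEmbedding.isReal_iff] at this
      rw [← this]
      ext x
      rfl
    obtain ⟨s, hs⟩ := NumberField.ComplexEmbedding.exists_comp_symm_eq_of_comp_eq φ
      (ComplexEmbedding.conjugate φ) h1
    exact ⟨s.symm, hs.symm⟩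
  -- the element a τ
  have hres : ∀ τ : L →+* ℂ, ∃ a ∈ A, ∀ x : L,
      Φ (τ.comp (algebraMap F L)) (a⁻¹ (algebraMap L E x)) = τ x := by
    intro τ
    set v := τ.comp (algebraMap F L) with hv
    have h1 : ((Φ v).comp (algebraMap L E)).comp (algebraMap F L) = τ.comp (algebraMap F L) := by
      rw [RingHom.comp_assoc, ← IsScalarTower.algebraMap_eq, hΦ v]
    obtain ⟨s, hs⟩ := NumberField.ComplexEmbedding.exists_comp_symm_eq_of_comp_eq
      ((Φ v).comp (algebraMap L E)) τ h1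
    obtain ⟨g, hg⟩ := hrLsurj s
    obtain ⟨a, ha, q, hq, hgq⟩ := hA' g
    refine ⟨a, ha, ?_⟩
    intro x
    have h2 : rL a = s := by
      have : rL q = 1 := by
        rw [hrange] at hq
        exact hq
      rw [← hg, hgq, map_mul, this, one_mul]
    have h3 : a⁻¹ (algebraMap L E x) = algebraMap L E (s.symm x) := by
      have h4 := res_apply (F := F) (E := L) (K := E) a⁻¹ x
      rw [← h4]
      congr 1
      show (rL a⁻¹) x = _
      rw [map_inv, h2]
      rfl
    rw [h3]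
    exact RingHom.congr_fun hs x
  choose a haA ha using hres
  -- uniqueness of a
  have hauniq : ∀ (τ : L →+* ℂ) (b : Gal(E/F)), b ∈ A →
      (∀ x : L, Φ (τ.comp (algebraMap F L)) (b⁻¹ (algebraMap L E x)) = τ x) → b = a τ := by
    intro τ b hb hbx
    have h1 : a τ * b⁻¹ ∈ j.range := by
      rw [mem_range_jR]
      intro x
      have h2 : b⁻¹ (algebraMap L E x) = (a τ)⁻¹ (algebraMap L E x) := by
        apply (Φ (τ.comp (algebraMap F L))).injective
        rw [hbx, ha]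
      show (a τ) (b⁻¹ (algebraMap L E x)) = _
      rw [h2]
      show ((a τ) * (a τ)⁻¹) (algebraMap L E x) = _
      rw [mul_inv_cancel, AlgEquiv.one_apply]
    have h3 : a τ * b⁻¹ ∈ A ⊓ j.range := ⟨A.mul_mem (haA τ) (A.inv_mem hb), h1⟩
    rw [hA, Subgroup.mem_bot, mul_inv_eq_one] at h3
    exact h3.symm
  let φ : (L →+* ℂ) → (E →+* ℂ) := fun τ =>
    (Φ (τ.comp (algebraMap F L))).comp ((a τ)⁻¹ : Gal(E/F)).toRingEquiv.toRingHom
  have hφ : ∀ τ, (φ τ).comp (algebraMap L E) = τ := by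
    intro τ
    ext x
    exact ha τ x
  choose cv hcv using fun v : F →+* ℂ => hconj (Φ v)
  have hcc : ∀ τ : L →+* ℂ, ∃ q : Gal(E/L), j q = a τ * j (cv (τ.comp (algebraMap F L))) * (a τ)⁻¹ :=
    fun τ => hjn.conj_mem _ ⟨_, rfl⟩ (a τ)
  choose c hc using hcc
  have hcφ : ∀ τ, ComplexEmbedding.IsConj (φ τ) (c τ) := by
    intro τ
    have h1 := hcv (τ.comp (algebraMap F L))
    rw [ComplexEmbedding.IsConj] at h1 ⊢
    ext x
    have h2 := RingHom.congr_fun h1 ((a τ)⁻¹ x)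
    have h3 : (c τ) x = (a τ) ((cv (τ.comp (algebraMap F L))) ((a τ)⁻¹ x)) := by
      have := congrArg (fun g : Gal(E/F) => g x) (hc τ)
      exact this
    show ComplexEmbedding.conjugate (φ τ) x = (Φ (τ.comp (algebraMap F L))) ((a τ)⁻¹ ((c τ) x))
    rw [h3]
    have h4 : (a τ)⁻¹ ((a τ) ((cv (τ.comp (algebraMap F L))) ((a τ)⁻¹ x))) =
        (cv (τ.comp (algebraMap F L))) ((a τ)⁻¹ x) := by
      show ((a τ)⁻¹ * (a τ)) _ = _
      rw [inv_mul_cancel, AlgEquiv.one_apply]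
    rw [h4]
    exact h2
  have hTG : TopGen c σ := hgen φ c σ hφ hcφ hσr
  have hc2 : ∀ τ, c τ * c τ = 1 := by
    intro τ
    have h1 := hcφ τ
    rw [ComplexEmbedding.IsConj] at h1
    ext x
    apply (φ τ).injective
    have h2 := RingHom.congr_fun h1 ((c τ) x)
    have h3 := RingHom.congr_fun h1 x
    show (φ τ) ((c τ) ((c τ) x)) = (φ τ) x
    have h4 : (φ τ) ((c τ) ((c τ) x)) = star ((φ τ) ((c τ) x)) := h2.symm
    have h5 : (φ τ) ((c τ) x) = star ((φ τ) x) := h3.symm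
    rw [h4, h5, star_star]
  have hAssign : Assign c σ := hT Gal(E/L) hpro (L →+* ℂ) c σ hc2 hTG
    (fun N hN hNo => by
      have := hlow φ c hφ hcφ N hN hNo
      convert this)
  -- restriction K → E
  let res : Gal(K/F) →* Gal(E/F) := AlgEquiv.restrictNormalHom E
  have hresc : Continuous res := continuous_res
  have hress : Function.Surjective res := AlgEquiv.restrictNormalHom_surjective K
  have hρs' : ∀ g, res g ∈ j.range → ∃ a : k,
      (ρbar g : Matrix (Fin 3) (Fin 3) k) = a • (1 : Matrix (Fin 3) (Fin 3) k) := by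
    intro g hg
    refine hρs g (fun x => ?_)
    rw [← res_apply (F := F) (E := E) (K := K) g]
    rw [mem_range_jR] at hg
    exact congrArg _ (hg x)
  choose lf hlf using hress
  -- the assignment
  let v₀ : F →+* ℂ := (Classical.arbitrary (F →+* ℂ))
  let π : Gal(E/F) → (L →+* ℂ) → (L →+* ℂ) := fun b τ =>
    τ.comp ((rL b)⁻¹ : Gal(L/F)).toRingEquiv.toRingHom
  have hπv : ∀ b τ, (π b τ).comp (algebraMap F L) = τ.comp (algebraMap F L) := by
    intro b τ
    ext x
    show τ ((rL b)⁻¹ (algebraMap F L x)) = τ (algebraMap F L x)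
    rw [AlgEquiv.commutes]
  have hπa : ∀ b ∈ A, ∀ τ, a (π b τ) = b * a τ := by
    intro b hb τ
    refine (hauniq (π b τ) (b * a τ) (A.mul_mem hb (haA τ)) ?_).symm
    intro x
    rw [hπv]
    have h1 : (b * a τ)⁻¹ (algebraMap L E x) = (a τ)⁻¹ (algebraMap L E ((rL b)⁻¹ x)) := by
      rw [_root_.mul_inv_rev]
      show (a τ)⁻¹ (b⁻¹ (algebraMap L E x)) = _
      congr 1
      have h4 := res_apply (F := F) (E := L) (K := E) b⁻¹ x
      rw [← h4]
      congr 1
      show (rL b⁻¹) x = _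
      rw [map_inv]
    rw [h1]
    exact ha τ _
  have hπc : ∀ b ∈ A, ∀ τ, b * j (c τ) * b⁻¹ = j (c (π b τ)) := by
    intro b hb τ
    rw [hc, hc, hπa b hb, hπv]
    group
  have hσc : ∀ b ∈ A, b * j σ * b⁻¹ = j σ := by
    intro b hb
    rw [hσA b hb, mul_inv_cancel_right]
  let R : Gal(E/F) → GL (Fin 3) (PowerSeries k) := fun b => CM (ρbar (lf b))
  have hRmul : ∀ (g : Gal(K/F)) (b : Gal(E/F)) (Y : GL (Fin 3) (PowerSeries k)),
      R (res g * b) * Y * (R (res g * b))⁻¹ = CM (ρbar g) * (R b * Y * (R b)⁻¹) * (CM (ρbar g))⁻¹ := by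
    intro g b Y
    obtain ⟨s, hs⟩ := hρs' (lf (res g * b) * (g * lf b)⁻¹) (by
      rw [map_mul, map_inv, map_mul, hlf, hlf, mul_inv_cancel]
      exact Subgroup.one_mem _)
    have := conj_scalar (ρbar (lf (res g * b))) (ρbar (g * lf b)) s (by
      rw [← map_inv, ← map_mul]; exact hs) Y
    show CM (ρbar (lf (res g * b))) * Y * (CM (ρbar (lf (res g * b))))⁻¹ = _
    rw [this]
    show _ = CM (ρbar g) * (CM (ρbar (lf b)) * Y * (CM (ρbar (lf b)))⁻¹) * (CM (ρbar g))⁻¹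
    rw [map_mul, map_mul]
    group
  -- elements of A with prescribed projective image
  have hAel : ∀ M : GL (Fin 3) k, (∃ h, ρbar h = M) → ∃ b ∈ A, ∃ s : k, s ≠ 0 ∧
      (ρbar (lf b) : Matrix (Fin 3) (Fin 3) k) = s • (M : Matrix (Fin 3) (Fin 3) k) := by
    rintro M ⟨h, rfl⟩
    obtain ⟨b, hb, q, hq, hbq⟩ := hA' (res h)
    obtain ⟨s, hs⟩ := hρs' (lf b * h⁻¹) (by
      rw [map_mul, map_inv, hlf, hbq, _root_.mul_inv_rev, mul_inv_cancel_left]
      exact Subgroup.inv_mem _ hq)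
    refine ⟨b, hb, s, ?_, ?_⟩
    · rintro rfl
      rw [zero_smul] at hs
      have := (ρbar (lf b * h⁻¹)).isUnit
      rw [hs] at this
      exact not_isUnit_zero this
    · have : ρbar (lf b) = ρbar (lf b * h⁻¹) * ρbar h := by rw [← map_mul]; congr 1; group
      rw [this, Units.val_mul, hs, Matrix.smul_mul, one_mul]
  obtain ⟨gT, hgT⟩ := hρT
  have hgT2 : ((ρbar gT * ρbar gT : GL (Fin 3) k) : Matrix (Fin 3) (Fin 3) k) =
      !![0, ω, 0; 0, 0, ω; 1, 0, 0] := by
    rw [Units.val_mul, hgT]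
    exact TM_sq ω
  obtain ⟨b₁, hb₁, s₁, hs₁, hB₁⟩ := hAel (ρbar gT * ρbar gT) ⟨gT * gT, map_mul _ _ _⟩
  obtain ⟨b₂, hb₂, s₂, hs₂, hB₂⟩ := hAel (ρbar gT) ⟨gT, rfl⟩
  -- complex conjugation above v₀ and its lift to K
  obtain ⟨τ₀, hτ₀⟩ : ∃ τ₀ : L →+* ℂ, τ₀.comp (algebraMap F L) = v₀ :=
    ⟨(Φ v₀).comp (algebraMap L E), by
      rw [RingHom.comp_assoc, ← IsScalarTower.algebraMap_eq, hΦ v₀]⟩
  -- choose τ₀ with a τ₀ = 1
  let τ₁ : L →+* ℂ := (Φ v₀).comp (algebraMap L E)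
  have hτ₁v : τ₁.comp (algebraMap F L) = v₀ := by
    show ((Φ v₀).comp (algebraMap L E)).comp (algebraMap F L) = v₀
    rw [RingHom.comp_assoc, ← IsScalarTower.algebraMap_eq, hΦ v₀]
  have haτ₁ : a τ₁ = 1 := by
    refine (hauniq τ₁ 1 A.one_mem ?_).symm
    intro x
    rw [hτ₁v, inv_one, AlgEquiv.one_apply]
    rfl
  let ct : Gal(K/F) := lf (j (c τ₁))
  obtain ⟨sc, hsc⟩ := hρs' ct (by
    show res (lf (j (c τ₁))) ∈ j.range
    rw [hlf]
    exact ⟨_, rfl⟩)
  have hsc0 : sc ≠ 0 := by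
    rintro rfl
    rw [zero_smul] at hsc
    have := (ρbar ct).isUnit
    rw [hsc] at this
    exact not_isUnit_zero this
  refine ⟨lf b₁ * ct, lf b₂ * ct, s₁ * sc, s₂ * sc, mul_ne_zero hs₁ hsc0, mul_ne_zero hs₂ hsc0, ?_⟩
  intro m hm
  let t : (L →+* ℂ) → GL (Fin 3) (PowerSeries k) := fun τ =>
    if τ.comp (algebraMap F L) = v₀ then R (a τ) * XM k m * (R (a τ))⁻¹ else 1
  have ht2 : ∀ τ, t τ * t τ = 1 := by
    intro τ
    show (if _ then _ else _) * (if _ then _ else _) = (1 : GL (Fin 3) (PowerSeries k))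
    split_ifs
    · calc R (a τ) * XM k m * (R (a τ))⁻¹ * (R (a τ) * XM k m * (R (a τ))⁻¹)
          = R (a τ) * (XM k m * XM k m) * (R (a τ))⁻¹ := by group
        _ = 1 := by rw [XM_sq, mul_one, mul_inv_cancel]
    · rw [one_mul]
  have htred : ∀ τ, Matrix.GeneralLinearGroup.map PowerSeries.constantCoeff (t τ) = 1 := by
    intro τ
    by_cases h : τ.comp (algebraMap F L) = v₀
    · have : t τ = R (a τ) * XM k m * (R (a τ))⁻¹ := if_pos h
      rw [this, map_mul, map_mul, XM_red m (by omega), mul_one, map_inv, mul_inv_cancel]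
    · have : t τ = 1 := if_neg h
      rw [this, map_one]
  obtain ⟨ψ, hψ1, hψo, hψc, hψσ⟩ := hLim Gal(E/L) (L →+* ℂ) c σ hTG hAssign k 3 t ht2 htred
  have htπ : ∀ g : Gal(K/F), res g ∈ A → ∀ τ, t (π (res g) τ) =
      CM (ρbar g) * t τ * (CM (ρbar g))⁻¹ := by
    intro g hg τ
    show (if (π (res g) τ).comp (algebraMap F L) = v₀ then _ else _) =
      CM (ρbar g) * (if τ.comp (algebraMap F L) = v₀ then _ else _) * (CM (ρbar g))⁻¹
    rw [hπv]
    split_ifs with h
    · rw [hπa _ hg, hRmul]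
    · rw [mul_one, mul_inv_cancel]
  obtain ⟨ρ, hρ1, hρ2, hρ3⟩ := extend_rep j hjinj hjo hjc hjn res hresc
    (AlgEquiv.restrictNormalHom_surjective K) A hA hA' c σ hTG π hπc hσc ρbar hρo hρs' t htπ ψ hψ1
    hψo hψc hψσ
  -- value at lf b * ct
  have hval : ∀ b ∈ A, ((ρ (lf b * ct) : GL (Fin 3) (PowerSeries k)) : Matrix (Fin 3) (Fin 3) (PowerSeries k)) =
      PowerSeries.C sc • ((ρbar (lf b) : Matrix (Fin 3) (Fin 3) k).map PowerSeries.C * (1 + NM k m)) := by
    intro b hb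
    have h1 : res (lf b * ct) = j (c (π b τ₁)) * b := by
      rw [map_mul, hlf, ← hπc b hb]
      show b * res (lf (j (c τ₁))) = _
      rw [hlf]
      group
    have h2 := hρ3 _ _ b hb h1
    have h3 : ψ (c (π b τ₁)) = R b * XM k m * (R b)⁻¹ := by
      rw [hψc]
      show (if _ then _ else _) = _
      rw [if_pos (by rw [hπv, hτ₁v]), hπa b hb, haτ₁, mul_one]
    rw [h2, h3, map_mul, map_mul]
    have h4 : R b * XM k m * (R b)⁻¹ * (CM (ρbar (lf b)) * CM (ρbar ct)) =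
        CM (ρbar (lf b)) * XM k m * CM (ρbar ct) := by
      show CM (ρbar (lf b)) * XM k m * (CM (ρbar (lf b)))⁻¹ * (CM (ρbar (lf b)) * CM (ρbar ct)) = _
      group
    rw [h4, Units.val_mul, Units.val_mul, CM_coe, CM_coe, hsc]
    have h5 : ((sc • (1 : Matrix (Fin 3) (Fin 3) k)).map PowerSeries.C :
        Matrix (Fin 3) (Fin 3) (PowerSeries k)) = PowerSeries.C sc • 1 := by
      ext i j
      by_cases hij : i = j
      · subst hij; simp
      · simp [Matrix.one_apply_ne hij]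
    rw [h5, Matrix.mul_smul, mul_one]
    rfl
  have hbar : ∀ b, (ρbar (lf b * ct) : Matrix (Fin 3) (Fin 3) k) =
      sc • (ρbar (lf b) : Matrix (Fin 3) (Fin 3) k) := by
    intro b
    rw [map_mul, Units.val_mul, hsc, Matrix.mul_smul, mul_one]
  refine ⟨ρ, hρ1, hρ2, ?_, ?_⟩
  · rw [hval b₁ hb₁, hbar, hB₁, hgT2]
    simp only [NM, Matrix.trace_fin_three, Matrix.smul_apply, Matrix.mul_apply, Fin.sum_univ_three,
      Matrix.map_apply, Matrix.add_apply, Matrix.one_apply]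
    simp
    ring
  · rw [hval b₂ hb₂, hbar, hB₂, hgT]
    simp only [NM, Matrix.trace_fin_three, Matrix.smul_apply, Matrix.mul_apply, Fin.sum_univ_three,
      Matrix.map_apply, Matrix.add_apply, Matrix.one_apply]
    simp
    ring

end MZ
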