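import Mathlib

/-!
# Mazur's dimension conjecture (MP_aa8fd2_nt): definitions

* `FSmax S` : the maximal extension `F_S` of a number field `F` inside an algebraic closure `Ω`
  unramified outside the finite set `S` of finite places (no condition at the infinite places);
* `GFS S = Gal(F_S/F)` with its Krull topology;
* `CNL p k` : complete Noetherian local `W(k)`-algebras with residue field `k`;
* `IsLift`, `StrictEquiv`, `IsUniversal` : deformations and the universal deformation ring;
* `delta` : the number `δ(ρ̄)`;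
* `MazurDimension` : the statement of the problem.
-/

set_option autoImplicit false

namespace MZ

open NumberField IsDedekindDomain

/-! ## The group `G_{F,S}` -/

section FS

variable {F Ω : Type} [Field F] [Field Ω] [Algebra F Ω]

/-- The extension `K/F` (inside `Ω`) is unramified at all finite places of `K` which do not lie
above a place of `S`. -/
def UnramifiedOutside (S : Set (HeightOneSpectrum (𝓞 F))) (K : IntermediateField F Ω) : Prop :=
  ∀ w : HeightOneSpectrum (𝓞 K),
    (∀ v ∈ S, w.asIdeal.comap (algebraMap (𝓞 F) (𝓞 K)) ≠ v.asIdeal) →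
      Algebra.IsUnramifiedAt (𝓞 F) w.asIdeal

/-- `F_S` : the compositum of all finite extensions of `F` inside `Ω` which are unramified
outside `S`. -/
def FSmax (S : Set (HeightOneSpectrum (𝓞 F))) : IntermediateField F Ω :=
  ⨆ K : {K : IntermediateField F Ω // FiniteDimensional F K ∧ UnramifiedOutside S K}, K.1

/-- `G_{F,S} = Gal(F_S/F)`. -/
abbrev GFS (Ω : Type) [Field Ω] [Algebra F Ω] (S : Set (HeightOneSpectrum (𝓞 F))) : Type :=
  Gal((FSmax S : IntermediateField F Ω)/F)

end FS

/-! ## Coefficient rings and deformations -/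

/-- Complete Noetherian local `W(k)`-algebras with residue field `k`. -/
structure CNL (p : ℕ) [Fact p.Prime] (k : Type) [Field k] [CharP k p] where
  /-- the underlying ring -/
  A : Type
  [ring : CommRing A]
  [isLocal : IsLocalRing A]
  [noeth : IsNoetherianRing A]
  [complete : IsAdicComplete (IsLocalRing.maximalIdeal A) A]
  [alg : Algebra (WittVector p k) A]
  /-- the reduction map to the residue field `k` -/
  res : A →+* k
  res_surj : Function.Surjective res
  /-- the structure map induces the identity of `k` on residue fields -/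
  res_coeff : ∀ x : WittVector p k, res (algebraMap (WittVector p k) A x) = x.coeff 0

attribute [instance] CNL.ring CNL.isLocal CNL.noeth CNL.complete CNL.alg

section Deformations

variable {p : ℕ} [Fact p.Prime] {k : Type} [Field k] [CharP k p]
variable {G : Type} [Group G] [TopologicalSpace G] {n : ℕ}

/-- `ρ : G → GL_n(A)` is a continuous lift of `ρbar` (continuity for the `m_A`-adic topology). -/
def IsLift (ρbar : G →* GL (Fin n) k) (A : CNL p k) (ρ : G →* GL (Fin n) A.A) : Prop :=
  (∀ g, Matrix.GeneralLinearGroup.map A.res (ρ g) = ρbar g) ∧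
  ∀ j : ℕ, IsOpen {g : G | ∀ a b : Fin n,
    ((ρ g : Matrix (Fin n) (Fin n) A.A) - 1) a b ∈ IsLocalRing.maximalIdeal A.A ^ j}

/-- Strict equivalence: conjugation by a matrix reducing to the identity. -/
def StrictEquiv (A : CNL p k) (ρ ρ' : G →* GL (Fin n) A.A) : Prop :=
  ∃ M : GL (Fin n) A.A, Matrix.GeneralLinearGroup.map A.res M = 1 ∧
    ∀ g, ρ' g = M * ρ g * M⁻¹

/-- `(R, ρu)` is a universal deformation ring of `ρbar` together with a universal lift. -/
def IsUniversal (ρbar : G →* GL (Fin n) k) (R : CNL p k) (ρu : G →* GL (Fin n) R.A) : Prop :=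
  IsLift ρbar R ρu ∧
  ∀ (A : CNL p k) (ρ : G →* GL (Fin n) A.A), IsLift ρbar A ρ →
    ∃! f : R.A →ₐ[WittVector p k] A.A,
      (∀ x, A.res (f x) = R.res x) ∧
      StrictEquiv A ((Matrix.GeneralLinearGroup.map (f : R.A →+* A.A)).comp ρu) ρ

/-- Absolute irreducibility: no proper nonzero stable subspace over an algebraic closure. -/
def AbsIrred (ρbar : G →* GL (Fin n) k) : Prop :=
  ∀ V : Submodule (AlgebraicClosure k) (Fin n → AlgebraicClosure k),
    (∀ g, ∀ x ∈ V,
      ((ρbar g : Matrix (Fin n) (Fin n) k).map (algebraMap k (AlgebraicClosure k))).mulVec x ∈ V) →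
    V = ⊥ ∨ V = ⊤

/-- `H⁰(D, Ad⁰(ρbar))` : trace zero matrices commuting with `ρbar(D)`. -/
def ad0Inv (ρbar : G →* GL (Fin n) k) (D : Subgroup G) : Submodule k (Matrix (Fin n) (Fin n) k) where
  carrier := {X | X.trace = 0 ∧ ∀ g ∈ D,
    (ρbar g : Matrix (Fin n) (Fin n) k) * X = X * (ρbar g : Matrix (Fin n) (Fin n) k)}
  add_mem' := by
    rintro X Y ⟨hX, hX'⟩ ⟨hY, hY'⟩
    exact ⟨by rw [Matrix.trace_add, hX, hY, add_zero],
      fun g hg => by rw [mul_add, add_mul, hX' g hg, hY' g hg]⟩
  zero_mem' := ⟨Matrix.trace_zero _ _, fun g _ => by rw [mul_zero, zero_mul]⟩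
  smul_mem' := by
    rintro c X ⟨hX, hX'⟩
    exact ⟨by rw [Matrix.trace_smul, hX, smul_zero],
      fun g hg => by rw [Matrix.mul_smul, Matrix.smul_mul, hX' g hg]⟩

end Deformations

/-! ## The number `δ(ρ̄)` and the conjecture -/

/-- `δ(ρbar) = (1 + r₂) + (n² - 1) [F : ℚ] - ∑_{v ∣ ∞} dim H⁰(G_v, Ad⁰(ρbar))`, where `G_v` is the
stabiliser of a place `w v` of `F_S` above `v`. -/
noncomputable def delta {F Ω : Type} [Field F] [NumberField F] [Field Ω] [Algebra F Ω]
    (S : Set (HeightOneSpectrum (𝓞 F))) {k : Type} [Field k] {n : ℕ}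
    (ρbar : GFS Ω S →* GL (Fin n) k)
    (w : InfinitePlace F → InfinitePlace (FSmax S : IntermediateField F Ω)) : ℤ :=
  (1 + InfinitePlace.nrComplexPlaces F) + ((n : ℤ) ^ 2 - 1) * Module.finrank ℚ F
    - ∑ v : InfinitePlace F,
        (Module.finrank k (ad0Inv ρbar (MulAction.stabilizer (GFS Ω S) (w v))) : ℤ)

/-- The data of the problem: `n ≥ 1`, `p` prime to `n`, `S` a finite set of places containing the
places above `p` (and all infinite places), `ρbar` continuous and absolutely irreducible, `w v` a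
place of `F_S` above each infinite place `v` of `F`. -/
def IsDatum (F Ω : Type) [Field F] [NumberField F] [Field Ω] [Algebra F Ω]
    (S : Set (HeightOneSpectrum (𝓞 F))) (p : ℕ) (k : Type) [Field k] (n : ℕ)
    (ρbar : GFS Ω S →* GL (Fin n) k)
    (w : InfinitePlace F → InfinitePlace (FSmax S : IntermediateField F Ω)) : Prop :=
  1 ≤ n ∧ Nat.Coprime p n ∧ S.Finite ∧
  (∀ v : HeightOneSpectrum (𝓞 F), (p : 𝓞 F) ∈ v.asIdeal → v ∈ S) ∧
  IsOpen (ρbar.ker : Set (GFS Ω S)) ∧ AbsIrred ρbar ∧
  ∀ v : InfinitePlace F,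
    (w v).comap (algebraMap F (FSmax S : IntermediateField F Ω)) = v

/-- Mazur's dimension conjecture in the form of the problem: for all data, the universal
deformation ring `R` is flat over `W(k)` and `R/pR` has Krull dimension `δ(ρbar)`. -/
def MazurDimension : Prop :=
  ∀ (F Ω : Type) [Field F] [NumberField F] [Field Ω] [Algebra F Ω] [IsAlgClosure F Ω]
    (S : Set (HeightOneSpectrum (𝓞 F))) (p : ℕ) [Fact p.Prime]
    (k : Type) [Field k] [Finite k] [CharP k p] (n : ℕ)
    (ρbar : GFS Ω S →* GL (Fin n) k)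
    (w : InfinitePlace F → InfinitePlace (FSmax S : IntermediateField F Ω)),
    IsDatum F Ω S p k n ρbar w →
    ∃ (R : CNL p k) (ρu : GFS Ω S →* GL (Fin n) R.A), IsUniversal ρbar R ρu ∧
      Module.Flat (WittVector p k) R.A ∧
      ∃ d : ℕ, ringKrullDim (R.A ⧸ Ideal.span {(p : R.A)}) = d ∧ (d : ℤ) = delta S ρbar w

end MZ
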